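import Mathlib
import Pool.Agent.H27.PiB2

set_option autoImplicit false

namespace Pool.Agent.Results.MP_66f42e_an.PiBase

open Filter Topology Set

/-- Finitely supported real families on the binary tree (nodes are lists of bits). -/
def C00 : Type := List Bool →₀ ℝ

noncomputable instance : AddCommGroup C00 := inferInstanceAs (AddCommGroup (List Bool →₀ ℝ))
noncomputable instance : Module ℝ C00 := inferInstanceAs (Module ℝ (List Bool →₀ ℝ))

/-- The coefficient of `x` at the node `t`. -/
def coef (x : C00) (t : List Bool) : ℝ := (show List Bool →₀ ℝ from x) t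

/-- The sums of absolute values over finite antichains of the prefix order. -/
def sums (x : C00) : Set ℝ :=
  {r | ∃ A : Finset (List Bool), IsAntichain (fun s t => s <+: t) (A : Set (List Bool)) ∧
    r = ∑ t ∈ A, |coef x t|}

theorem zero_mem (x : C00) : 0 ∈ sums x := ⟨∅, by simp [IsAntichain], by simp⟩

theorem bdd (x : C00) : BddAbove (sums x) := by
  classical
  refine ⟨∑ t ∈ (show List Bool →₀ ℝ from x).support, |coef x t|, ?_⟩
  rintro _ ⟨A, -, rfl⟩
  rw [← Finset.sum_filter_ne_zero]
  refine Finset.sum_le_sum_of_subset_of_nonneg (fun t ht => ?_) fun _ _ _ => abs_nonneg _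
  exact Finsupp.mem_support_iff.2 fun h => (Finset.mem_filter.1 ht).2 (abs_eq_zero.2 h)

theorem sup_le {x y : C00} {c : ℝ} (hc : 0 ≤ c) (h : ∀ t, |coef x t| ≤ c * |coef y t|) :
    sSup (sums x) ≤ c * sSup (sums y) := by
  refine csSup_le ⟨_, zero_mem x⟩ ?_
  rintro _ ⟨A, hA, rfl⟩
  refine (Finset.sum_le_sum fun t _ => h t).trans ?_
  rw [← Finset.mul_sum]
  exact mul_le_mul_of_nonneg_left (le_csSup (bdd y) ⟨A, hA, rfl⟩) hc

theorem coef_le (x : C00) (t : List Bool) : |coef x t| ≤ sSup (sums x) :=
  le_csSup (bdd x) ⟨{t}, by simp [IsAntichain], by simp⟩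

/-- The stopping time norm: the supremum over antichains of the sum of absolute values. -/
noncomputable def stNorm : AddGroupNorm C00 where
  toFun x := sSup (sums x)
  map_zero' := le_antisymm
    ((sup_le (y := 0) le_rfl fun t => by simp [coef]; rfl).trans (by simp))
    (le_csSup (bdd 0) (zero_mem 0))
  add_le' x y := by
    refine csSup_le ⟨_, zero_mem _⟩ ?_
    rintro _ ⟨A, hA, rfl⟩
    refine (Finset.sum_le_sum fun t _ => abs_add_le (coef x t) (coef y t)).trans ?_
    rw [Finset.sum_add_distrib]
    exact add_le_add (le_csSup (bdd x) ⟨A, hA, rfl⟩) (le_csSup (bdd y) ⟨A, hA, rfl⟩)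
  neg' x := by
    have : sums (-x) = sums x := by
      have h : ∀ t, |coef (-x) t| = |coef x t| := fun t => abs_neg (coef x t)
      simp only [sums, h]
    rw [this]
  eq_zero_of_map_eq_zero' x hx := by
    refine Finsupp.ext fun t => ?_
    have := coef_le x t
    rw [hx] at this
    exact abs_nonpos_iff.1 this

noncomputable instance : NormedAddCommGroup C00 := stNorm.toNormedAddCommGroup

noncomputable instance : NormedSpace ℝ C00 where
  norm_smul_le c x := sup_le (abs_nonneg c) fun t => (abs_mul c (coef x t)).le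

/-- The stopping time space: the completion of `C00` under the stopping time norm. -/
abbrev ST : Type := UniformSpace.Completion C00

/-- The closed unit ball of the stopping time space with the relative weak topology. -/
abbrev WeakBall : Type := {x : WeakSpace ℝ ST // ‖(toWeakSpace ℝ ST).symm x‖ ≤ 1}

noncomputable def sg (t : List Bool) : C00 := (Finsupp.single t 1 : List Bool →₀ ℝ)

theorem coef_sum (s : Finset (List Bool)) (a : List Bool → ℝ) (t : List Bool) :
    coef (∑ n ∈ s, a n • sg n) t = if t ∈ s then a t else 0 := by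
  have : coef (∑ n ∈ s, a n • sg n) t = ∑ n ∈ s, a n * (Finsupp.single n 1 : List Bool →₀ ℝ) t :=
    Finsupp.finsetSum_apply s (fun n => a n • (Finsupp.single n 1 : List Bool →₀ ℝ)) t
  rw [this]
  simp [Finsupp.single_apply]

theorem coe_sum (s : Finset (List Bool)) (a : List Bool → ℝ) :
    ∑ n ∈ s, a n • (sg n : ST) = ((∑ n ∈ s, a n • sg n : C00) : ST) := by
  have := map_sum (UniformSpace.Completion.toComplL (𝕜 := ℝ) (E := C00)) (fun n => a n • sg n) s
  simp only [map_smul] at this
  exact this.symm

/-- The unit ball of the stopping time space has a countable π-base for the weak topology. -/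
theorem result : ∃ 𝒰 : Set (Set WeakBall), 𝒰.Countable ∧ (∀ U ∈ 𝒰, IsOpen U ∧ U.Nonempty) ∧
    ∀ V : Set WeakBall, IsOpen V → V.Nonempty → ∃ U ∈ 𝒰, U ⊆ V := by
  refine Pool.Agent.H27.PiB.pibase (e := fun t => (sg t : ST)) ?_ ?_ ?_
  · refine (UniformSpace.Completion.denseRange_coe (α := C00)).mono ?_
    rintro _ ⟨x, rfl⟩
    have : x = ∑ n ∈ (show List Bool →₀ ℝ from x).support, coef x n • sg n := by
      refine Finsupp.ext fun t => ?_
      refine Eq.trans ?_ (coef_sum _ _ t).symm
      split_ifs with h
      · rfl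
      · exact Finsupp.notMem_support_iff.1 h
    rw [this, ← coe_sum]
    exact Submodule.sum_mem _ fun n _ => Submodule.smul_mem _ _ (Submodule.subset_span ⟨n, rfl⟩)
  · intro s a ε hε
    rw [coe_sum, coe_sum, UniformSpace.Completion.norm_coe, UniformSpace.Completion.norm_coe]
    refine (sup_le zero_le_one fun t => ?_).trans (one_mul _).le
    rw [coef_sum, coef_sum]
    split_ifs
    · rcases hε t with h | h <;> simp [h]
    · simp
  · intro t h
    have h1 : ‖(sg t : ST)‖ = 0 := by rw [h, norm_zero]
    rw [UniformSpace.Completion.norm_coe] at h1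
    have h2 := (coef_le (sg t) t).trans h1.le
    simp [coef, sg] at h2
    linarith

end Pool.Agent.Results.MP_66f42e_an.PiBase
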